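import Pool.Agent.H41.T1.S5

/-!
# T1, row CTSK: the number of symmetric matrices
-/

set_option autoImplicit false

namespace Pool.T1

open Polynomial Matrix Pool.HYP

theorem ctsk : CTSKStmt := by
  classical
  intro R _ K _ _ O π hC n e
  set q := qq O with hq
  let t : Fin n × Fin n → Finset R := fun x =>
    if x.1 ≤ x.2 then (hC (e x.1 x.2)).1.toFinset else {0}
  let φ : Matrix (Fin n) (Fin n) R → Fin n × Fin n → R := fun G x =>
    if x.1 ≤ x.2 then G x.1 x.2 else 0
  have hmap : ∀ G ∈ {G : Matrix (Fin n) (Fin n) R | Gᵀ = G ∧ ∀ i j, G i j ∈ Lm R O π (e i j)},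
      φ G ∈ ((Fintype.piFinset t : Finset (Fin n × Fin n → R)) :
        Set (Fin n × Fin n → R)) := by
    intro G hG
    rw [Finset.mem_coe, Fintype.mem_piFinset]
    intro x
    by_cases hx : x.1 ≤ x.2
    · simp only [t, φ, hx, if_true, Set.Finite.mem_toFinset]
      exact hG.2 _ _
    · simp [t, φ, hx]
  have hinj : Set.InjOn φ
      {G : Matrix (Fin n) (Fin n) R | Gᵀ = G ∧ ∀ i j, G i j ∈ Lm R O π (e i j)} := by
    intro G hG G' hG' hφ
    have h1 : ∀ i j : Fin n, i ≤ j → G i j = G' i j := by
      intro i j hij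
      have h2 := congrFun hφ (i, j)
      simpa only [φ, hij, if_true] using h2
    refine Matrix.ext fun i j => ?_
    rcases le_total i j with hij | hij
    · exact h1 i j hij
    · have h2 : G i j = G j i := by
        conv_lhs => rw [← hG.1]
        rfl
      have h3 : G' i j = G' j i := by
        conv_lhs => rw [← hG'.1]
        rfl
      rw [h2, h3, h1 j i hij]
  have hfin : {G : Matrix (Fin n) (Fin n) R | Gᵀ = G ∧
      ∀ i j, G i j ∈ Lm R O π (e i j)}.Finite :=
    Set.Finite.of_injOn hmap hinj (Finset.finite_toSet _)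
  refine ⟨hfin, ?_⟩
  have h1 := Set.ncard_le_ncard_of_injOn φ hmap hinj (Finset.finite_toSet _)
  rw [Set.ncard_coe_finset, Fintype.card_piFinset] at h1
  have h2 : ∏ x : Fin n × Fin n, (t x).card ≤
      q ^ ∑ x : Fin n × Fin n, (if x.1 ≤ x.2 then (e x.1 x.2 + 1).toNat else 0) := by
    rw [← Finset.prod_pow_eq_pow_sum]
    refine Finset.prod_le_prod' fun x _ => ?_
    by_cases hx : x.1 ≤ x.2
    · simp only [t, hx, if_true]
      have h3 := (hC (e x.1 x.2)).2
      rw [Set.ncard_eq_toFinset_card _ (hC (e x.1 x.2)).1] at h3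
      exact h3
    · simp only [t, hx, if_false, Finset.card_singleton, pow_zero, le_refl]
  rw [Fintype.sum_prod_type] at h2
  exact h1.trans h2

end Pool.T1
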