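import Pool.Agent.H14.T1.S3

/-!
# T1, row SEMA: the primes of the integral closure above a prime of `F[t]`
-/

set_option autoImplicit false

namespace Pool.T1

open Polynomial Matrix Pool.HYP Pool.TOW Pool.AVS IsDedekindDomain

namespace SEMA

variable {F : Type} [Field F] {K : Type} [Field K] [Algebra (RatFunc F) K]

theorem xR_inj : Function.Injective (xR F K) := by
  intro a b hab
  have h1 : ((xR F K a : RR F K) : K) = ((xR F K b : RR F K) : K) := by rw [hab]
  rw [xR_coe, xR_coe] at h1
  exact IsFractionRing.injective F[X] (RatFunc F)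
    ((algebraMap (RatFunc F) K).injective h1)

theorem xR_ne {p : F[X]} (hp : p ≠ 0) : xR F K p ≠ 0 := fun h =>
  hp (xR_inj (h.trans (map_zero (xR F K)).symm))

variable [FiniteDimensional (RatFunc F) K] [Algebra.IsSeparable (RatFunc F) K]

theorem fin_above {p : F[X]} (hp : p ≠ 0) :
    {P : HeightOneSpectrum (RR F K) | Abv p P}.Finite := by
  have h1 : Ideal.span {xR F K p} ≠ 0 := by
    rw [Ideal.zero_eq_bot, Ne, Ideal.span_singleton_eq_bot]
    exact xR_ne hp
  refine (Ideal.finite_factors h1).subset fun P hP => ?_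
  show P.asIdeal ∣ Ideal.span {xR F K p}
  rw [Ideal.dvd_span_singleton]
  exact hP

theorem integral : Algebra.IsIntegral F[X] (RR F K) := by
  have := finite_RR F K
  exact Algebra.IsIntegral.of_finite F[X] (RR F K)

omit [FiniteDimensional (RatFunc F) K] [Algebra.IsSeparable (RatFunc F) K] in
theorem under_eq {p : F[X]} (hpi : Irreducible p) {P : HeightOneSpectrum (RR F K)}
    (hP : Abv p P) (q : F[X]) : Abv q P ↔ p ∣ q := by
  have hpr : (Ideal.comap (xR F K) P.asIdeal).IsPrime :=
    Ideal.comap_isPrime (xR F K) P.asIdeal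
  have hmax : (Ideal.span {p}).IsMaximal :=
    PrincipalIdealRing.isMaximal_of_irreducible hpi
  have hle : Ideal.span {p} ≤ Ideal.comap (xR F K) P.asIdeal := by
    rw [Ideal.span_singleton_le_iff_mem]
    exact hP
  have heq : Ideal.span {p} = Ideal.comap (xR F K) P.asIdeal :=
    hmax.eq_of_le hpr.ne_top hle
  rw [← Ideal.mem_span_singleton, heq]
  exact Iff.rfl

theorem ex_above {p : F[X]} (hpi : Irreducible p) :
    ∃ P : HeightOneSpectrum (RR F K), Abv p P := by
  have := integral (F := F) (K := K)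
  have hmax : (Ideal.span {p}).IsMaximal :=
    PrincipalIdealRing.isMaximal_of_irreducible hpi
  obtain ⟨Q, hQ1, hQ2⟩ := Ideal.exists_ideal_over_maximal_of_isIntegral (S := RR F K)
    (Ideal.span {p}) (by
      intro x hx
      have h1 : xR F K x = 0 := hx
      rw [xR_inj (h1.trans (map_zero (xR F K)).symm)]
      exact Ideal.zero_mem _)
  have h2 : xR F K p ∈ Q := by
    have h3 : p ∈ Ideal.comap (algebraMap F[X] (RR F K)) Q := by
      rw [hQ2]
      exact Ideal.mem_span_singleton_self p
    exact h3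
  refine ⟨⟨Q, hQ1.isPrime, ?_⟩, h2⟩
  rintro rfl
  exact xR_ne hpi.ne_zero (Ideal.mem_bot.1 h2)

theorem ex_below (P : HeightOneSpectrum (RR F K)) :
    ∃ p : F[X], p.Monic ∧ Irreducible p ∧ Abv p P := by
  classical
  have := integral (F := F) (K := K)
  have hpr : (Ideal.comap (xR F K) P.asIdeal).IsPrime :=
    Ideal.comap_isPrime (xR F K) P.asIdeal
  have hne : Ideal.comap (algebraMap F[X] (RR F K)) P.asIdeal ≠ ⊥ := by
    obtain ⟨x, hx, hx0⟩ := Submodule.exists_mem_ne_zero_of_ne_bot P.ne_bot
    exact Ideal.comap_ne_bot_of_integral_mem hx0 hx (Algebra.IsIntegral.isIntegral x)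
  obtain ⟨q, hq⟩ := (IsPrincipalIdealRing.principal
    (Ideal.comap (xR F K) P.asIdeal)).principal
  have hq' : Ideal.comap (xR F K) P.asIdeal = Ideal.span {q} := hq
  have hq0 : q ≠ 0 := by
    rintro rfl
    refine hne (hq'.trans ?_)
    rw [Ideal.span_singleton_eq_bot]
  have hqp : Prime q := by
    rw [hq'] at hpr
    exact (Ideal.span_singleton_prime hq0).1 hpr
  have hqP : Abv q P := by
    have h1 : q ∈ Ideal.comap (xR F K) P.asIdeal := by
      rw [hq']
      exact Ideal.mem_span_singleton_self q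
    exact h1
  refine ⟨normalize q, monic_normalize hq0, ?_, ?_⟩
  · exact (normalize_associated q).symm.irreducible hqp.irreducible
  · obtain ⟨u, hu⟩ := (normalize_associated q).symm
    show xR F K (normalize q) ∈ P.asIdeal
    rw [← hu, map_mul]
    exact Ideal.mul_mem_right _ _ hqP

omit [FiniteDimensional (RatFunc F) K] [Algebra.IsSeparable (RatFunc F) K] in
theorem main {p : F[X]} (hpi : Irreducible p) {P : HeightOneSpectrum (RR F K)}
    (hP : Abv p P) (x : RatFunc F) : algebraMap (RatFunc F) K x ∈ RP K P ↔ x ∈ IP p := by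
  have hd0 : algebraMap F[X] (RatFunc F) x.denom ≠ 0 := by
    rw [Ne, IsFractionRing.to_map_eq_zero_iff]
    exact x.denom_ne_zero
  have hx : x * algebraMap F[X] (RatFunc F) x.denom = algebraMap F[X] (RatFunc F) x.num :=
    ((div_eq_iff hd0).1 (RatFunc.num_div_denom x)).symm
  have hxK : algebraMap (RatFunc F) K x * ((xR F K x.denom : RR F K) : K) =
      ((xR F K x.num : RR F K) : K) := by
    rw [xR_coe, xR_coe, ← map_mul, hx]
  constructor
  · rintro ⟨m, hm, a, ha⟩ hdvd
    rw [algMap_RR, algMap_RR] at ha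
    have h1 : m * xR F K x.num = a * xR F K x.denom := by
      apply Subtype.ext
      show (m : K) * ((xR F K x.num : RR F K) : K) = (a : K) * ((xR F K x.denom : RR F K) : K)
      rw [← hxK, ← ha]
      ring
    have h2 : m * xR F K x.num ∈ P.asIdeal := by
      rw [h1]
      exact Ideal.mul_mem_left _ _ ((under_eq hpi hP _).2 hdvd)
    rcases P.isPrime.mem_or_mem h2 with h3 | h3
    · exact hm h3
    · have h4 : p ∣ x.num := (under_eq hpi hP _).1 h3
      exact hpi.not_isUnit ((RatFunc.isCoprime_num_denom x).isUnit_of_dvd' h4 hdvd)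
  · intro h
    refine ⟨xR F K x.denom, fun h1 => h ((under_eq hpi hP _).1 h1), xR F K x.num, ?_⟩
    rw [algMap_RR, algMap_RR, ← hxK, mul_comm]

end SEMA

theorem sema : SEMAStmt := by
  intro F _ K _ _ _ _
  refine ⟨fun p hp => SEMA.fin_above hp, fun p _ hpi => SEMA.ex_above hpi, fun P => ?_,
    fun p _ hpi P hP x => SEMA.main hpi hP x⟩
  obtain ⟨p, hpm, hpi, hP⟩ := SEMA.ex_below P
  refine ⟨p, hpm, hpi, hP, fun q hqm hqi hq => ?_⟩
  have h1 : p ∣ q := (SEMA.under_eq hpi hP q).1 hq
  exact (eq_of_monic_of_associated hpm hqm (hpi.associated_of_dvd hqi h1)).symm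

end Pool.T1
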