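import Pool.Agent.H20.HYP.TRN
import Pool.Agent.H29.T1.S7

/-!
# T1, row TRAK: translation of `x` and the Selmer group
-/

set_option autoImplicit false

namespace Pool.T1

open Polynomial Pool.HYP Pool.HYP.H20 Pool.TOW

namespace TRAK

variable {K : Type} [Field K]

theorem sel_comp (f : K[X]) (ρ : K) (h : SelK f) : SelK (f.comp (X + C ρ)) := by
  intro p hp hn hl
  have hb : (f.comp (X + C ρ)).comp (X + C (-ρ)) = f := comp_comp_add f ρ
  have h1 : IsCoprime (p.comp (X + C (-ρ))) f := by
    obtain ⟨a, b, hab⟩ := hp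
    refine ⟨a.comp (X + C (-ρ)), b.comp (X + C (-ρ)), ?_⟩
    have h2 := congrArg (fun p => p.comp (X + C (-ρ))) hab
    simp only [add_comp, mul_comp, one_comp] at h2
    rw [hb] at h2
    exact h2
  have h2 : IsSquare (Algebra.norm K (AdjoinRoot.mk f (p.comp (X + C (-ρ))))) := by
    have h3 := Algebra.norm_eq_of_algEquiv (trE f (f.comp (X + C ρ)) ρ rfl)
      (AdjoinRoot.mk f (p.comp (X + C (-ρ))))
    rw [trE_mk, comp_comp_add'] at h3
    rw [← h3]
    exact hn
  obtain ⟨s, a, ha⟩ := h _ h1 h2 (by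
    intro L _ O ι hι
    have h3 := locSol_comp (-ι ρ) (hl L O ι hι)
    have h4 : ((f.comp (X + C ρ)).map ι).comp (X + C (-ι ρ)) = f.map ι := by
      have h5 := congrArg (fun p => p.map ι) hb
      simp only [Polynomial.map_comp] at h5
      rw [Polynomial.map_comp]
      simpa using h5
    have h5 : (p.comp (X + C (-ρ))).map ι = (p.map ι).comp (X + C (-ι ρ)) := by
      rw [Polynomial.map_comp]
      simp
    rw [h4] at h3
    rw [h5]
    exact h3)
  refine ⟨s.comp (X + C ρ), a.comp (X + C ρ), ?_⟩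
  have h3 := congrArg (fun p => p.comp (X + C ρ)) ha
  simp only [sub_comp, mul_comp, pow_comp] at h3
  rw [comp_comp_add'] at h3
  exact h3

end TRAK

theorem trak : TRAKStmt := by
  intro K _ f c _
  have e : (X - C c : K[X]) = X + C (-c) := by rw [C_neg, sub_eq_add_neg]
  rw [e]
  constructor
  · intro h
    have h1 := TRAK.sel_comp _ c h
    rwa [comp_comp_add'] at h1
  · exact TRAK.sel_comp f (-c)

end Pool.T1
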