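import Pool.Agent.H29.T1.S2

/-!
# T1, row USMK: classes of units form a group
-/

set_option autoImplicit false

namespace Pool.T1

open Polynomial Matrix Pool.HYP Pool.TOW Pool.AVS IsDedekindDomain

theorem usmk : USMKStmt := by
  intro R _ _ K _ _ P f h h' ⟨s, p, h1, h2, h3⟩ ⟨s', p', h1', h2', h3'⟩
  refine ⟨s * s', p * p', h1.mul_left h1', ?_, ?_⟩
  · have e : h * h' * (s * s') ^ 2 - fk K (p * p') =
        (h * s ^ 2 - fk K p) * (h' * s' ^ 2) + (h' * s' ^ 2 - fk K p') * fk K p := by
      simp only [fk, Polynomial.map_mul]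
      ring
    rw [e]
    exact dvd_add (h2.mul_right _) (h2'.mul_right _)
  · have e : md P (p * p') = md P p * md P p' := by
      simp only [md, Polynomial.map_mul]
    rw [e]
    exact h3.mul_left h3'

end Pool.T1
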