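import Pool.Agent.H29.T1.ZS
import Pool.Agent.H78.TOW.UDA

/-!
# T1, row ZUDA: smooth points and unramified extensions
-/

set_option autoImplicit false

namespace Pool.T1.Zuda88

open Polynomial Pool.HYP Pool.TOW Pool.AVS IsDedekindDomain Pool.AVS.RIP

variable {R : Type} [CommRing R] [IsDedekindDomain R] {K : Type} [Field K] [Algebra R K]
  [IsFractionRing R K] {P : HeightOneSpectrum R} {ϖ : R} {L : Type} [Field L]
  {O' : ValuationSubring L} {ι : K →+* L}

/-- The homomorphism. -/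
noncomputable def phi (h : UCP P ϖ L O' ι) : R →+* O' where
  toFun p := ⟨ι (algebraMap R K p), h.int p⟩
  map_one' := Subtype.ext (by simp)
  map_zero' := Subtype.ext (by simp)
  map_mul' p q := Subtype.ext (by simp)
  map_add' p q := Subtype.ext (by simp)

/-- The reduction. -/
noncomputable def res (h : UCP P ϖ L O' ι) : R →+* IsLocalRing.ResidueField O' :=
  (IsLocalRing.residue O').comp (phi h)

theorem res_zero (h : UCP P ϖ L O' ι) (a : R) : res h a = 0 ↔ a ∈ P.asIdeal := by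
  rw [← h.mem]
  show IsLocalRing.residue O' (phi h a) = 0 ↔ _
  rw [IsLocalRing.residue_eq_zero_iff, mem_max h.loc]
  rfl

/-- The embedding of the residue field. -/
noncomputable def rho (h : UCP P ϖ L O' ι) : R ⧸ P.asIdeal →+* IsLocalRing.ResidueField O' :=
  Ideal.Quotient.lift P.asIdeal (res h) (fun a ha => (res_zero h a).2 ha)

theorem map_rho (h : UCP P ϖ L O' ι) (q : R[X]) :
    (q.map (Ideal.Quotient.mk P.asIdeal)).map (rho h) = rd O' (q.map (phi h)) := by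
  rw [Polynomial.map_map, rd, Polynomial.map_map]
  rfl

theorem oL_map (h : UCP P ϖ L O' ι) (D : R[X]) :
    oL O' (D.map (phi h)) = (fk K D).map ι := by
  rw [oL, Polynomial.map_map, fk, Polynomial.map_map]
  rfl

theorem phiP (h : UCP P ϖ L O' ι) {ϖ' : O'} (hϖ : (ϖ' : L) = ι (algebraMap R K ϖ)) :
    phi h ϖ = ϖ' := Subtype.ext hϖ.symm

theorem rd_zero (h : UCP P ϖ L O' ι) {ϖ' : O'} (hϖ : (ϖ' : L) = ι (algebraMap R K ϖ))
    (z : O'[X]) (hz : rd O' z = 0) : ∃ δ : O'[X], z = C ϖ' * δ := by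
  have h1 : C ϖ' ∣ z := by
    rw [C_dvd_iff_dvd_coeff]
    intro n
    have h2 : IsLocalRing.residue O' (z.coeff n) = 0 := by
      rw [← coeff_map]
      show (rd O' z).coeff n = 0
      rw [hz, coeff_zero]
    rw [IsLocalRing.residue_eq_zero_iff, mem_max h.loc] at h2
    refine ⟨⟨_, h2⟩, Subtype.ext ?_⟩
    show (z.coeff n : L) = (ϖ' : L) * ((z.coeff n : L) / ι (algebraMap R K ϖ))
    rw [hϖ, mul_div_cancel₀ _ h.loc.pi_ne]
  exact h1

theorem rd_pi (h : UCP P ϖ L O' ι) {ϖ' : O'} (hϖ : (ϖ' : L) = ι (algebraMap R K ϖ)) (z : O'[X]) :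
    rd O' (C ϖ' * z) = 0 := by
  have h1 : IsLocalRing.residue O' ϖ' = 0 := by
    rw [IsLocalRing.residue_eq_zero_iff, mem_max h.loc, hϖ, div_self h.loc.pi_ne]
    exact O'.one_mem
  rw [rd, Polynomial.map_mul, map_C, h1, C_0, zero_mul]

/-- Divisibility modulo `P`. -/
theorem mk_zero (q : R[X]) : q.map (Ideal.Quotient.mk P.asIdeal) = 0 ↔ Zer P.asIdeal q := by
  constructor
  · intro hD n
    rw [← Ideal.Quotient.eq_zero_iff_mem, ← coeff_map, hD, coeff_zero]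
  · intro hD
    ext n
    rw [coeff_map, coeff_zero, Ideal.Quotient.eq_zero_iff_mem]
    exact hD n

theorem lift_dvd {m : (R ⧸ P.asIdeal)[X]} {γ₀ : R[X]}
    (hγ : γ₀.map (Ideal.Quotient.mk P.asIdeal) = m)
    (q : R[X]) (hq : m ∣ q.map (Ideal.Quotient.mk P.asIdeal)) :
    ∃ a b : R[X], q = γ₀ * a + b ∧ Zer P.asIdeal b := by
  obtain ⟨r, hr⟩ := hq
  obtain ⟨a, ha⟩ := Polynomial.map_surjective _ Ideal.Quotient.mk_surjective r
  have h1 : Zer P.asIdeal (q - γ₀ * a) := by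
    rw [← mk_zero, Polynomial.map_sub, Polynomial.map_mul, hγ, ha, hr, sub_self]
  exact ⟨a, q - γ₀ * a, by ring, h1⟩

theorem pi_mem (h : UCP P ϖ L O' ι) : ϖ ∈ P.asIdeal := by
  rw [← h.mem, div_self h.loc.pi_ne]
  exact O'.one_mem

/-- The powers of `P` map to the powers of the uniformizer. -/
theorem pow_mem (h : UCP P ϖ L O' ι) {x : R} {n : ℕ} (hx : x ∈ P.asIdeal ^ n) :
    phi h ϖ ^ n ∣ phi h x := by
  have h1 : P.asIdeal ≤ (Ideal.span {phi h ϖ}).comap (phi h) := by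
    intro a ha
    rw [Ideal.mem_comap, Ideal.mem_span_singleton]
    refine ⟨⟨_, (h.mem a).2 ha⟩, Subtype.ext ?_⟩
    show ι (algebraMap R K a) = ι (algebraMap R K ϖ) * (ι (algebraMap R K a) /
      ι (algebraMap R K ϖ))
    rw [mul_div_cancel₀ _ h.loc.pi_ne]
  have h2 : P.asIdeal ^ n ≤ ((Ideal.span {phi h ϖ}) ^ n).comap (phi h) :=
    (Ideal.pow_right_mono h1 n).trans (Ideal.le_comap_pow _ n)
  have h3 := h2 hx
  rw [Ideal.mem_comap, Ideal.span_singleton_pow, Ideal.mem_span_singleton] at h3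
  exact h3

theorem pi_not (h : UCP P ϖ L O' ι) : ϖ ∉ P.asIdeal ^ 2 := by
  intro h1
  obtain ⟨u, hu⟩ := pow_mem h h1
  have h0 : phi h ϖ ≠ 0 := by
    intro h2
    exact h.loc.pi_ne (congrArg Subtype.val h2)
  have h3 : phi h ϖ * u = 1 := by
    apply mul_left_cancel₀ h0
    rw [mul_one]
    rw [pow_two] at hu
    rw [← mul_assoc]
    exact hu.symm
  have h4 : IsLocalRing.residue O' (phi h ϖ) = 0 := (res_zero h ϖ).2 (pi_mem h)
  have h5 := congrArg (IsLocalRing.residue O') h3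
  rw [map_mul, h4, zero_mul, map_one] at h5
  exact zero_ne_one h5

/-- Splitting of a polynomial with coefficients in `P`. -/
theorem split (h : UCP P ϖ L O' ι) (e : R[X]) (he : Zer P.asIdeal e) :
    ∃ e₁ e₂ : R[X], e = C ϖ * e₁ + e₂ ∧ Zer (P.asIdeal ^ 2) e₂ := by
  have h1 : ∀ n, ∃ d : R, ∃ r ∈ P.asIdeal ^ (1 + 1), ϖ * d + r = e.coeff n := by
    intro n
    refine Ideal.exists_mul_add_mem_pow_succ (P := P.asIdeal) P.ne_bot (i := 1) ϖ (e.coeff n) ?_ ?_ ?_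
    · rw [pow_one]
      exact pi_mem h
    · exact pi_not h
    · rw [pow_one]
      exact he n
  choose d r hr hd using h1
  refine ⟨∑ n ∈ Finset.range (e.natDegree + 1), monomial n (d n),
    ∑ n ∈ Finset.range (e.natDegree + 1), monomial n (r n), ?_, ?_⟩
  · rw [Finset.mul_sum, ← Finset.sum_add_distrib]
    conv_lhs => rw [e.as_sum_range]
    refine Finset.sum_congr rfl (fun n _ => ?_)
    rw [C_mul_monomial, ← map_add, hd n]
  · intro m
    rw [finsetSum_coeff]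
    refine Ideal.sum_mem _ (fun n _ => ?_)
    rw [coeff_monomial]
    split_ifs with h2
    · exact hr n
    · exact Ideal.zero_mem _

theorem zer2_map (h : UCP P ϖ L O' ι) (e : R[X]) (he : Zer (P.asIdeal ^ 2) e) :
    ∃ k : O'[X], e.map (phi h) = C (phi h ϖ) ^ 2 * k := by
  have h1 : C (phi h ϖ ^ 2) ∣ e.map (phi h) := by
    rw [C_dvd_iff_dvd_coeff]
    intro n
    rw [coeff_map]
    exact pow_mem h (he n)
  obtain ⟨k, hk⟩ := h1
  exact ⟨k, by rw [hk, C_pow]⟩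

theorem sing (hfin : Finite (R ⧸ P.asIdeal)) (h : UCP P ϖ L O' ι) {ϖ' : O'}
    (hϖ : (ϖ' : L) = ι (algebraMap R K ϖ)) (f : R[X]) (γ : O'[X])
    (hi : Irreducible (rd O' γ)) (hs : InSq ϖ' (f.map (phi h)) γ) : Sing P.asIdeal f := by
  have hmax : P.asIdeal.IsMaximal := P.isMaximal
  letI : Field (R ⧸ P.asIdeal) := Ideal.Quotient.field P.asIdeal
  have : Finite (IsLocalRing.ResidueField O') := h.loc.fin
  obtain ⟨a, b, c, habc⟩ := hs
  obtain ⟨m, hm1, hm2, hm3, δ₀, hm4, hm5⟩ := Pool.TOW78.low (rho h) (rd O' γ) hi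
  have hf1 : rd O' (f.map (phi h)) = rd O' γ ^ 2 * rd O' a := by
    rw [habc]
    have e1 : γ ^ 2 * a + C ϖ' * (γ * b) + C (ϖ' ^ 2) * c =
        γ ^ 2 * a + C ϖ' * (γ * b + C ϖ' * c) := by
      rw [C_pow]
      ring
    rw [e1]
    have e2 := rd_pi h hϖ (γ * b + C ϖ' * c)
    rw [rd] at e2
    rw [rd, Polynomial.map_add, e2, Polynomial.map_mul, Polynomial.map_pow, add_zero]
  obtain ⟨q, hq⟩ : m ∣ f.map (Ideal.Quotient.mk P.asIdeal) := hm3 _ (by
    rw [map_rho, hf1]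
    exact ⟨rd O' γ * rd O' a, by ring⟩)
  have hq2 : m ∣ q := by
    refine hm3 _ ?_
    have e1 : rd O' γ * (δ₀ * q.map (rho h)) = rd O' γ * (rd O' γ * rd O' a) := by
      have e2 := congrArg (Polynomial.map (rho h)) hq
      rw [map_rho, hf1, Polynomial.map_mul, hm4] at e2
      linear_combination -e2
    have e3 := mul_left_cancel₀ hi.ne_zero e1
    exact hm5.dvd_of_dvd_mul_left ⟨rd O' a, e3⟩
  have hl : m ∈ Polynomial.lifts (Ideal.Quotient.mk P.asIdeal) := by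
    rw [Polynomial.mem_lifts]
    exact Polynomial.map_surjective _ Ideal.Quotient.mk_surjective m
  obtain ⟨γ₀, hγ1, _, hγ3⟩ := Polynomial.lifts_and_natDegree_eq_and_monic hl hm1
  obtain ⟨r, hr⟩ := hq2
  obtain ⟨a₀, ha₀⟩ := Polynomial.map_surjective _
    (Ideal.Quotient.mk_surjective (I := P.asIdeal)) r
  have he : Zer P.asIdeal (f - γ₀ ^ 2 * a₀) := by
    rw [← mk_zero, Polynomial.map_sub, Polynomial.map_mul, Polynomial.map_pow, hγ1, ha₀, hq, hr]
    ring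
  obtain ⟨e, e0, hee, he0⟩ := split h _ he
  obtain ⟨k, hk⟩ := zer2_map h e0 he0
  rw [phiP h hϖ] at hk
  obtain ⟨δ, hδ⟩ := Polynomial.map_surjective _ (IsLocalRing.residue_surjective (R := O')) δ₀
  obtain ⟨ε, hε⟩ := rd_zero h hϖ (γ₀.map (phi h) - γ * δ) (by
    have e1 := map_rho h γ₀
    rw [hγ1, hm4] at e1
    rw [rd, Polynomial.map_sub, Polynomial.map_mul, hδ]
    show rd O' (γ₀.map (phi h)) - rd O' γ * δ₀ = 0
    rw [← e1, sub_self])
  set A₀ : O'[X] := a₀.map (phi h) with hA₀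
  set G₀ : O'[X] := γ₀.map (phi h) with hG₀
  set e' : O'[X] := e.map (phi h) with he'
  have hG : G₀ = γ * δ + C ϖ' * ε := by rw [← hε]; ring
  have hϖ0 : (C ϖ' : O'[X]) ≠ 0 := by
    rw [Ne, C_eq_zero]
    intro h0
    apply h.loc.pi_ne
    rw [← hϖ, h0]
    rfl
  have hE : γ ^ 2 * a + C ϖ' * (γ * b) + C (ϖ' ^ 2) * c - G₀ ^ 2 * A₀ =
      C ϖ' * e' + C ϖ' ^ 2 * k := by
    have e1 := congrArg (Polynomial.map (phi h)) hee
    rw [Polynomial.map_sub, Polynomial.map_mul, Polynomial.map_add, Polynomial.map_mul,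
      Polynomial.map_pow, map_C, phiP h hϖ, habc, hk] at e1
    exact e1
  obtain ⟨a', ha'⟩ := rd_zero h hϖ (a - δ ^ 2 * A₀) (by
    have e1 : rd O' (γ ^ 2 * (a - δ ^ 2 * A₀)) = 0 := by
      have e2 : γ ^ 2 * (a - δ ^ 2 * A₀) = C ϖ' * (e' + C ϖ' * k - γ * b - C ϖ' * c +
          2 * γ * δ * ε * A₀ + C ϖ' * ε ^ 2 * A₀) := by
        rw [hG, C_pow] at hE
        linear_combination hE
      rw [e2]
      exact rd_pi h hϖ _
    rw [rd, Polynomial.map_mul, Polynomial.map_pow] at e1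
    rcases mul_eq_zero.1 e1 with h1 | h1
    · exact absurd (pow_eq_zero_iff (two_ne_zero) |>.1 h1) hi.ne_zero
    · exact h1)
  have hE2 : e' = γ * (γ * a' + b - 2 * δ * ε * A₀) + C ϖ' * (c - ε ^ 2 * A₀ - k) := by
    apply mul_left_cancel₀ hϖ0
    rw [hG, C_pow] at hE
    linear_combination -hE + γ ^ 2 * ha'
  obtain ⟨e1, e2, he12, he2⟩ := lift_dvd hγ1 e (hm3 _ (by
    rw [map_rho, ← he', hE2]
    have e2 := rd_pi h hϖ (c - ε ^ 2 * A₀ - k)
    unfold rd at e2 ⊢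
    rw [Polynomial.map_add, e2, add_zero, Polynomial.map_mul]
    exact Dvd.intro _ rfl))
  refine ⟨γ₀, a₀, C ϖ * e1, C ϖ * e2 + e0, hγ3, ?_, ?_, ?_, ?_⟩
  · show Irreducible (γ₀.map (Ideal.Quotient.mk P.asIdeal))
    rw [hγ1]
    exact hm2
  · intro n
    rw [coeff_C_mul]
    exact Ideal.mul_mem_right _ _ (pi_mem h)
  · intro n
    rw [coeff_add, coeff_C_mul]
    refine Ideal.add_mem _ ?_ (he0 n)
    rw [pow_two]
    exact Ideal.mul_mem_mul (pi_mem h) (he2 n)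
  · linear_combination hee + C ϖ * he12

end Pool.T1.Zuda88

namespace Pool.T1

open Polynomial Pool.HYP Pool.TOW Pool.AVS IsDedekindDomain Pool.T1.Zuda88

/-- **ZUDA**. -/
theorem zuda : ZUDAStmt := by
  intro R _ _ K _ _ _ O π hR P ϖ L _ O' ι h f hf
  refine ⟨f.map (phi h), hf.map _, hf.natDegree_map _, oL_map h f, ?_⟩
  intro ϖ' hϖ γ _ hi hs
  exact sing (hR.fin P.asIdeal P.ne_bot) h hϖ f γ hi hs

end Pool.T1
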